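import Pool.Agent.Lib_MP_3a79a1_al.Count

/-!
# Short presentations of finite groups with efficient permutation stability

We prove that there are constants `A ≥ 1`, `c > 0` and finite groups `G` of unbounded order with
presentations `⟨S | R⟩`, where `|S|, |R|` and all relation lengths are polylogarithmic in `|G|`,
which for the *uniform* distributions on `S` and `R` are `ρ`-stable in permutations with
`ρ(ε) = A (log log |G|)^A ε^c`.  The generators are pairwise distinct non-identity elements of `G`.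
-/

set_option linter.unusedSectionVars false

namespace Pool.Agent.Results.MP_3a79a1_al.EfficientPresentations

open Pool.Agent.Lib_MP_3a79a1_al

/-- Normalised Hamming distance with errors between permutations of `{0,…,n-1}` and
`{0,…,N-1}`: one minus the number of common points `i` with `σ i = τ i`, divided by `max n N`. -/
noncomputable def hDist {n N : ℕ} (σ : Equiv.Perm (Fin n)) (τ : Equiv.Perm (Fin N)) : ℝ :=
  1 - (Nat.card {i : Fin n // ∃ h : (i : ℕ) < N, (σ i : ℕ) = (τ ⟨i, h⟩ : ℕ)} : ℝ) / (max n N : ℕ)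

/-- `‖δα‖`: the expected distance of `α(r)` to the identity, `r` uniform in `R`. -/
noncomputable def defect {S : Type} (R : Finset (FreeGroup S)) {n : ℕ}
    (α : S → Equiv.Perm (Fin n)) : ℝ :=
  (∑ r ∈ R, hDist (FreeGroup.lift α r) (1 : Equiv.Perm (Fin n))) / R.card

/-- `d(α, Z)`: the infimum, over all `N ≥ 2` and all `β : S → Sym(N)` satisfying every relation
in `R`, of the expected distance of `α(s)` to `β(s)`, `s` uniform in `S`. -/
noncomputable def distHom {S : Type} [Fintype S] (R : Finset (FreeGroup S)) {n : ℕ}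
    (α : S → Equiv.Perm (Fin n)) : ℝ :=
  sInf {t : ℝ | ∃ (N : ℕ) (β : S → Equiv.Perm (Fin N)), 2 ≤ N ∧
    (∀ r ∈ R, FreeGroup.lift β r = 1) ∧ t = (∑ s, hDist (α s) (β s)) / Fintype.card S}

/-- `⟨S | R⟩` is `ρ`-stable in permutations (uniform distributions on `S` and `R`). -/
def IsStable {S : Type} [Fintype S] (R : Finset (FreeGroup S)) (ρ : ℝ → ℝ) : Prop :=
  ∀ n : ℕ, 2 ≤ n → ∀ α : S → Equiv.Perm (Fin n), distHom R α ≤ ρ (defect R α)

lemma hDist_eq {n N : ℕ} (h : n ≤ N) (σ : Equiv.Perm (Fin n)) (τ : Equiv.Perm (Fin N))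
    (hN : 0 < N) : hDist σ τ = (((N - n) + dis h τ σ : ℕ) : ℝ) / N := by
  classical
  have h1 : Nat.card {i : Fin n // ∃ h : (i : ℕ) < N, (σ i : ℕ) = (τ ⟨i, h⟩ : ℕ)}
      = n - dis h τ σ := by
    rw [Nat.card_eq_fintype_card, Fintype.card_subtype]
    have h2 := Finset.card_filter_add_card_filter_not (s := (Finset.univ : Finset (Fin n)))
      (fun x : Fin n => τ (Fin.castLE h x) ≠ Fin.castLE h (σ x))
    rw [Finset.card_univ, Fintype.card_fin] at h2
    have h3 : (Finset.univ.filter (fun i : Fin n => ∃ h : (i : ℕ) < N, (σ i : ℕ) = (τ ⟨i, h⟩ : ℕ)))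
        = Finset.univ.filter (fun x : Fin n => ¬ τ (Fin.castLE h x) ≠ Fin.castLE h (σ x)) := by
      ext x
      simp only [Finset.mem_filter, Finset.mem_univ, true_and, not_not]
      constructor
      · rintro ⟨hx, he⟩
        apply Fin.ext
        exact he.symm
      · intro he
        exact ⟨lt_of_lt_of_le x.2 h, (congrArg Fin.val he).symm⟩
    rw [h3]
    unfold dis
    omega
  have hle : dis h τ σ ≤ n := by
    unfold dis
    refine le_trans (Finset.card_le_univ _) ?_
    rw [Fintype.card_fin]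
  unfold hDist
  rw [h1, max_eq_right h]
  have hN' : (N : ℝ) ≠ 0 := by positivity
  rw [Nat.cast_sub hle, Nat.cast_add, Nat.cast_sub h]
  field_simp
  ring

lemma hDist_le_one {n N : ℕ} (σ : Equiv.Perm (Fin n)) (τ : Equiv.Perm (Fin N)) :
    hDist σ τ ≤ 1 := by
  unfold hDist
  have : 0 ≤ (Nat.card {i : Fin n // ∃ h : (i : ℕ) < N, (σ i : ℕ) = (τ ⟨i, h⟩ : ℕ)} : ℝ) /
    (max n N : ℕ) := by positivity
  linarith

lemma hDist_nonneg {n N : ℕ} (σ : Equiv.Perm (Fin n)) (τ : Equiv.Perm (Fin N)) :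
    0 ≤ hDist σ τ := by
  unfold hDist
  have h1 : Nat.card {i : Fin n // ∃ h : (i : ℕ) < N, (σ i : ℕ) = (τ ⟨i, h⟩ : ℕ)} ≤ n := by
    have := Nat.card_le_card_of_injective
      (fun i : {i : Fin n // ∃ h : (i : ℕ) < N, (σ i : ℕ) = (τ ⟨i, h⟩ : ℕ)} => i.1)
      Subtype.val_injective
    simpa using this
  have h2 : (Nat.card {i : Fin n // ∃ h : (i : ℕ) < N, (σ i : ℕ) = (τ ⟨i, h⟩ : ℕ)} : ℝ) ≤
      (max n N : ℕ) := by
    exact_mod_cast le_trans h1 (le_max_left _ _)
  have h3 : (Nat.card {i : Fin n // ∃ h : (i : ℕ) < N, (σ i : ℕ) = (τ ⟨i, h⟩ : ℕ)} : ℝ) /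
    (max n N : ℕ) ≤ 1 := div_le_one_of_le₀ h2 (by positivity)
  linarith

lemma hDist_one {n : ℕ} (hn : 0 < n) (σ : Equiv.Perm (Fin n)) :
    hDist σ (1 : Equiv.Perm (Fin n)) = (hd σ 1 : ℝ) / n := by
  rw [hDist_eq le_rfl σ 1 hn]
  congr 2
  rw [Nat.sub_self, zero_add]
  unfold dis hd
  congr 1
  ext x
  rw [Finset.mem_filter, Finset.mem_filter]
  simp only [Finset.mem_univ, true_and, Fin.castLE_rfl, id, Equiv.Perm.coe_one]
  exact ne_comm

lemma distHom_le {S : Type} [Fintype S] (R : Finset (FreeGroup S)) {n N : ℕ}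
    (α : S → Equiv.Perm (Fin n)) (hN : 2 ≤ N) (β : S → Equiv.Perm (Fin N))
    (hβ : ∀ r ∈ R, FreeGroup.lift β r = 1) :
    distHom R α ≤ (∑ s, hDist (α s) (β s)) / Fintype.card S := by
  refine csInf_le ⟨0, ?_⟩ ⟨N, β, hN, hβ, rfl⟩
  rintro t ⟨N, β, _, _, rfl⟩
  exact div_nonneg (Finset.sum_nonneg (fun s _ => hDist_nonneg _ _)) (by positivity)

section est

variable {H : Type} [Group H] [Fintype H] [DecidableEq H] {k n : ℕ}

lemma defect_eq (hn : 2 ≤ n) (α : Gen H k → Equiv.Perm (Fin n)) :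
    defect (Rel H k) α = (totV α : ℝ) / (n * (Rel H k).card) := by
  unfold defect totV
  rw [Finset.sum_congr rfl (fun r _ => hDist_one (by omega : 0 < n) (FreeGroup.lift α r)),
    ← Finset.sum_div, div_div]
  push_cast
  rfl

lemma totV_le (hn : 2 ≤ n) (α : Gen H k → Equiv.Perm (Fin n)) :
    (totV α : ℝ) ≤ defect (Rel H k) α * (n * (Rel H k).card) := by
  rw [defect_eq hn]
  by_cases h0 : (n * (Rel H k).card : ℝ) = 0
  · have h1 : (Rel H k).card = 0 := by
      have : (n : ℝ) ≠ 0 := by positivity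
      have := (mul_eq_zero.1 h0).resolve_left this
      exact_mod_cast this
    have h2 : Rel H k = ∅ := Finset.card_eq_zero.1 h1
    have : totV α = 0 := by
      unfold totV
      rw [h2]
      simp
    rw [this]
    simp
  · rw [div_mul_cancel₀ _ h0]

lemma defect_nonneg {S : Type} (R : Finset (FreeGroup S)) (α : S → Equiv.Perm (Fin n)) :
    0 ≤ defect R α :=
  div_nonneg (Finset.sum_nonneg (fun s _ => hDist_nonneg _ _)) (by positivity)

lemma defect_le_one {S : Type} (R : Finset (FreeGroup S)) (α : S → Equiv.Perm (Fin n)) :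
    defect R α ≤ 1 := by
  unfold defect
  refine div_le_one_of_le₀ ?_ (by positivity)
  calc _ ≤ ∑ r ∈ R, (1 : ℝ) := Finset.sum_le_sum (fun r _ => hDist_le_one _ _)
    _ = R.card := by simp

/-- first estimate -/
lemma est1 (hn : 2 ≤ n) (α : Gen H k → Equiv.Perm (Fin n)) (hS : 0 < Fintype.card (Gen H k)) :
    distHom (Rel H k) α ≤ 661 * (k + 1) ^ 2 * (Rel H k).card * defect (Rel H k) α := by
  obtain ⟨N, h, β, hβ⟩ := est_unif α
  refine le_trans (distHom_le _ α (le_trans hn h) (fun s => β (genVal s)) (lift_comp β)) ?_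
  have hn0 : (0 : ℝ) < n := by positivity
  have hb : ∀ s, hDist (α s) (β (genVal s)) ≤
      661 * (k + 1) ^ 2 * (Rel H k).card * defect (Rel H k) α := by
    intro s
    rw [hDist_eq h _ _ (by omega)]
    have h1 : (((N - n) + dis h (β (genVal s)) (α s) : ℕ) : ℝ) ≤
        661 * (k + 1) ^ 2 * totV α := by
      have := hβ s
      have h2 : (((N - n) + dis h (β (genVal s)) (α s) : ℕ) : ℝ) ≤
        ((661 * ((k + 1) ^ 2 * totV α) : ℕ) : ℝ) := by exact_mod_cast this
      push_cast at h2 ⊢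
      linarith
    have h2 : (((N - n) + dis h (β (genVal s)) (α s) : ℕ) : ℝ) / N ≤
        (((N - n) + dis h (β (genVal s)) (α s) : ℕ) : ℝ) / n := by
      refine div_le_div_of_nonneg_left (by positivity) hn0 ?_
      exact_mod_cast h
    refine le_trans h2 ?_
    rw [div_le_iff₀ hn0]
    refine le_trans h1 ?_
    have h3 := totV_le hn α
    have h4 : (0 : ℝ) ≤ 661 * (k + 1) ^ 2 := by positivity
    calc 661 * ((k : ℝ) + 1) ^ 2 * totV α
        ≤ 661 * (k + 1) ^ 2 * (defect (Rel H k) α * (n * (Rel H k).card)) :=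
          mul_le_mul_of_nonneg_left h3 h4
      _ = _ := by ring
  have hS' : (0 : ℝ) < Fintype.card (Gen H k) := by exact_mod_cast hS
  rw [div_le_iff₀ hS']
  calc _ ≤ ∑ s : Gen H k, 661 * ((k : ℝ) + 1) ^ 2 * (Rel H k).card * defect (Rel H k) α :=
        Finset.sum_le_sum (fun s _ => hb s)
    _ = _ := by
        rw [Finset.sum_const, Finset.card_univ, nsmul_eq_mul]
        ring

/-- second estimate -/
lemma est2 (hn : 2 ≤ n) (α : Gen H k → Equiv.Perm (Fin n)) (hk : 1 ≤ k) :
    distHom (Rel H k) α ≤ 330 * (Rel H k).card * defect (Rel H k) α / (Fintype.card H) ^ 2 +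
      k / Fintype.card H := by
  obtain ⟨N, h, β, hβ⟩ := est_avg α
  refine le_trans (distHom_le _ α (le_trans hn h) (fun s => β (genVal s)) (lift_comp β)) ?_
  have hn0 : (0 : ℝ) < n := by positivity
  have hH0 : 0 < Fintype.card H := Fintype.card_pos
  have hH : (0 : ℝ) < Fintype.card H := by exact_mod_cast hH0
  have hcS : Fintype.card H ≤ Fintype.card (Gen H k) := by
    rw [Fintype.card_sum, Fintype.card_fin]
    have : Fintype.card {h : H // h ≠ 1} = Fintype.card H - 1 := by
      rw [Fintype.card_subtype_compl, Fintype.card_subtype_eq]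
    omega
  have hcS' : (Fintype.card H : ℝ) ≤ Fintype.card (Gen H k) := by exact_mod_cast hcS
  have hS' : (0 : ℝ) < Fintype.card (Gen H k) := lt_of_lt_of_le hH hcS'
  have hsum : ∑ s : Gen H k, hDist (α s) (β (genVal s)) ≤
      330 * (Rel H k).card * defect (Rel H k) α / Fintype.card H + k := by
    rw [Fintype.sum_sum_type]
    refine add_le_add ?_ ?_
    · have h1 : ∀ s : {h : H // h ≠ 1}, hDist (α (Sum.inl s)) (β (genVal (Sum.inl s))) ≤
          (((N - n) + dis h (β (genVal (Sum.inl s))) (α (Sum.inl s)) : ℕ) : ℝ) / n := by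
        intro s
        rw [hDist_eq h _ _ (by omega)]
        refine div_le_div_of_nonneg_left (by positivity) hn0 ?_
        exact_mod_cast h
      refine le_trans (Finset.sum_le_sum (fun s _ => h1 s)) ?_
      rw [← Finset.sum_div, div_le_iff₀ hn0, div_mul_eq_mul_div, le_div_iff₀ hH]
      have h2 : ((Fintype.card H * ∑ s : {h : H // h ≠ 1}, ((N - n) + dis h (β (genVal (Sum.inl s)))
        (α (Sum.inl s))) : ℕ) : ℝ) ≤ ((330 * totV α : ℕ) : ℝ) := by exact_mod_cast hβ
      have h3 := totV_le hn α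
      calc (∑ s : {h : H // h ≠ 1}, (((N - n) + dis h (β (genVal (Sum.inl s)))
            (α (Sum.inl s)) : ℕ) : ℝ)) * Fintype.card H
          = ((Fintype.card H * ∑ s : {h : H // h ≠ 1}, ((N - n) +
            dis h (β (genVal (Sum.inl s))) (α (Sum.inl s))) : ℕ) : ℝ) := by
            push_cast
            ring
        _ ≤ ((330 * totV α : ℕ) : ℝ) := h2
        _ = 330 * (totV α : ℝ) := by push_cast; ring
        _ ≤ 330 * (defect (Rel H k) α * (n * (Rel H k).card)) :=
            mul_le_mul_of_nonneg_left h3 (by norm_num)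
        _ = _ := by ring
    · calc ∑ i : Fin k, hDist (α (Sum.inr i)) (β (genVal (Sum.inr i)))
          ≤ ∑ i : Fin k, (1 : ℝ) := Finset.sum_le_sum (fun i _ => hDist_le_one _ _)
        _ = k := by simp
  have hnn : 0 ≤ 330 * (Rel H k).card * defect (Rel H k) α / Fintype.card H + k := by
    have := defect_nonneg (Rel H k) α
    positivity
  calc (∑ s : Gen H k, hDist (α s) (β (genVal s))) / Fintype.card (Gen H k)
      ≤ (330 * (Rel H k).card * defect (Rel H k) α / Fintype.card H + k) /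
          Fintype.card (Gen H k) := by
        exact div_le_div_of_nonneg_right hsum hS'.le
    _ ≤ (330 * (Rel H k).card * defect (Rel H k) α / Fintype.card H + k) / Fintype.card H := by
        exact div_le_div_of_nonneg_left hnn hH hcS'
    _ = _ := by
        rw [add_div, div_div, sq]

end est

/-- the numerical heart: combining the two estimates. -/
lemma numeric {k u t r d : ℝ} (hk : 1 ≤ k) (hku : k ≤ u) (ht0 : 0 ≤ t) (ht1 : t ≤ 1)
    (hr0 : 0 ≤ r) (hr : r ≤ 4 * (u ^ 5) ^ 2)
    (h1 : d ≤ 661 * (k + 1) ^ 2 * r * t ^ 4)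
    (h2 : d ≤ 330 * r * t ^ 4 / (u ^ 5) ^ 2 + k / u ^ 5) : d ≤ 10576 * t := by
  have hu0 : 0 < u := by linarith
  have ht4 : t ^ 4 ≤ t := by
    calc t ^ 4 = t * t ^ 3 := by ring
      _ ≤ t * 1 := mul_le_mul_of_nonneg_left (pow_le_one₀ ht0 ht1) ht0
      _ = t := mul_one t
  by_cases hc : 1 ≤ u ^ 4 * t
  · have e1 : 330 * r * t ^ 4 / (u ^ 5) ^ 2 ≤ 1320 * t := by
      rw [div_le_iff₀ (by positivity)]
      have : r * t ^ 4 ≤ 4 * (u ^ 5) ^ 2 * t := mul_le_mul hr ht4 (by positivity) (by positivity)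
      nlinarith
    have e2 : k / u ^ 5 ≤ t := by
      rw [div_le_iff₀ (by positivity)]
      have : u * 1 ≤ u * (u ^ 4 * t) := mul_le_mul_of_nonneg_left hc hu0.le
      nlinarith
    linarith
  · push Not at hc
    have hq0 : 0 ≤ u ^ 4 * t := by positivity
    have e3 : (u ^ 4 * t) ^ 3 ≤ 1 := pow_le_one₀ hq0 hc.le
    have e4 : u ^ 12 * t ^ 4 ≤ t := by
      calc u ^ 12 * t ^ 4 = (u ^ 4 * t) ^ 3 * t := by ring
        _ ≤ 1 * t := mul_le_mul_of_nonneg_right e3 ht0
        _ = t := one_mul t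
    have e5 : (k + 1) ^ 2 ≤ 4 * u ^ 2 := by nlinarith
    have e6 : (k + 1) ^ 2 * r ≤ 4 * u ^ 2 * (4 * (u ^ 5) ^ 2) :=
      mul_le_mul e5 hr hr0 (by positivity)
    have e7 : (k + 1) ^ 2 * r * t ^ 4 ≤ 4 * u ^ 2 * (4 * (u ^ 5) ^ 2) * t ^ 4 :=
      mul_le_mul_of_nonneg_right e6 (by positivity)
    calc d ≤ 661 * ((k + 1) ^ 2 * r * t ^ 4) := by linarith
      _ ≤ 661 * (4 * u ^ 2 * (4 * (u ^ 5) ^ 2) * t ^ 4) := by linarith
      _ = 10576 * (u ^ 12 * t ^ 4) := by ring
      _ ≤ 10576 * t := by linarith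

/-- splitting of coordinates. -/
def splitEquiv {M : Type} [Group M] {a b m : ℕ} (h : a + b = m) :
    (Fin a → M) × (Fin b → M) ≃* (Fin m → M) where
  toFun p := fun i => Sum.elim p.1 p.2 ((finSumFinEquiv.trans (finCongr h)).symm i)
  invFun v := (fun i => v ((finSumFinEquiv.trans (finCongr h)) (Sum.inl i)),
    fun i => v ((finSumFinEquiv.trans (finCongr h)) (Sum.inr i)))
  left_inv p := by
    ext i
    · simp only [Equiv.symm_apply_apply, Sum.elim_inl]
    · simp only [Equiv.symm_apply_apply, Sum.elim_inr]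
  right_inv v := by
    ext i
    obtain ⟨j, rfl⟩ := (finSumFinEquiv.trans (finCongr h)).surjective i
    rcases j with j | j
    · simp only [Equiv.symm_apply_apply, Sum.elim_inl]
    · simp only [Equiv.symm_apply_apply, Sum.elim_inr]
  map_mul' p q := by
    ext i
    obtain ⟨j, rfl⟩ := (finSumFinEquiv.trans (finCongr h)).surjective i
    rcases j with j | j
    · simp only [Equiv.symm_apply_apply, Sum.elim_inl, Prod.fst_mul, Pi.mul_apply]
    · simp only [Equiv.symm_apply_apply, Sum.elim_inr, Prod.snd_mul, Pi.mul_apply]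

lemma clog_bound (m : ℕ) (hm : 26 ≤ m) : 5 * Nat.clog 2 m < m := by
  by_cases h1 : m ≤ 32
  · have : Nat.clog 2 m ≤ 5 := Nat.clog_le_of_le_pow (by norm_num; omega)
    omega
  · by_cases h2 : Nat.clog 2 m ≤ 6
    · omega
    · have h3 : 2 ^ (Nat.clog 2 m).pred < m := Nat.pow_pred_clog_lt_self (by norm_num) (by omega)
      have h4 : ∀ n : ℕ, 6 ≤ n → 5 * (n + 1) < 2 ^ n := by
        intro n hn
        induction n, hn using Nat.le_induction with
        | base => norm_num
        | succ n hn ih => rw [pow_succ]; omega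
      have h5 := h4 (Nat.clog 2 m).pred (by rw [Nat.pred_eq_sub_one]; omega)
      rw [Nat.pred_eq_sub_one] at h5 h3
      have h6 : Nat.clog 2 m - 1 + 1 = Nat.clog 2 m := by omega
      rw [h6] at h5
      omega

/-- The elementary abelian `2`-group `(ℤ/2)^m`, written multiplicatively. -/
abbrev EA (m : ℕ) : Type := Fin m → Multiplicative (ZMod 2)

/-- **Main theorem.** There are constants `A ≥ 1`, `c > 0` such that for every `m ≥ 26` the group
`G = (ℤ/2)^m` has a presentation `⟨S | R⟩` whose generators are pairwise distinct non-identity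
elements of `G`, such that `|S|`, `|R|` and the lengths of all relations are at most
`A (log |G|)^A`, and such that, with the uniform distributions on `S` and on `R`, the presentation
is `ρ`-stable in permutations with `ρ(ε) = A (log log |G|)^A ε^c`.  Moreover all relations have
length at most `4` and the presentation is even `ρ`-stable with `ρ(ε) = A ε^c`. -/
theorem result :
    ∃ A c : ℝ, 1 ≤ A ∧ 0 < c ∧ ∀ m : ℕ, 26 ≤ m →
      ∃ (S : Type) (_ : Fintype S) (_ : DecidableEq S) (R : Finset (FreeGroup S))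
        (e : PresentedGroup (R : Set (FreeGroup S)) ≃* EA m),
        Function.Injective (fun s => e (PresentedGroup.of s)) ∧
        (∀ s, e (PresentedGroup.of s) ≠ 1) ∧
        (Fintype.card S : ℝ) ≤ A * Real.log (Nat.card (EA m)) ^ A ∧
        (R.card : ℝ) ≤ A * Real.log (Nat.card (EA m)) ^ A ∧
        (∀ r ∈ R, (r.norm : ℝ) ≤ A * Real.log (Nat.card (EA m)) ^ A) ∧
        IsStable R (fun ε => A * Real.log (Real.log (Nat.card (EA m))) ^ A * ε ^ c) ∧
        (∀ r ∈ R, r.norm ≤ 4) ∧
        IsStable R (fun ε => A * ε ^ c) := by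
  refine ⟨10576, 1 / 4, by norm_num, by norm_num, fun m hm => ?_⟩
  set c : ℕ := Nat.clog 2 m with hc
  have hcm : 5 * c < m := clog_bound m hm
  set u : ℕ := 2 ^ c with hu
  have hmu : m ≤ u := Nat.le_pow_clog (by norm_num) m
  have hum : u ≤ 2 * m := by
    have h1 : 2 ^ (Nat.clog 2 m).pred < m := Nat.pow_pred_clog_lt_self (by norm_num) (by omega)
    have h2 : 0 < Nat.clog 2 m := Nat.clog_pos (by norm_num) (by omega)
    rw [Nat.pred_eq_sub_one] at h1
    have h3 : u = 2 * 2 ^ (Nat.clog 2 m - 1) := by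
      rw [hu, hc, ← pow_succ']
      congr 1
      omega
    omega
  obtain ⟨k, hk⟩ : ∃ k, 5 * c + k = m := ⟨m - 5 * c, by omega⟩
  have hk1 : 1 ≤ k := by omega
  have hku : k ≤ u := by omega
  let H : Type := Fin (5 * c) → Multiplicative (ZMod 2)
  have hcard2 : Fintype.card (Multiplicative (ZMod 2)) = 2 := by
    rw [Fintype.card_multiplicative, ZMod.card]
  have hcH : Fintype.card H = u ^ 5 := by
    change Fintype.card (Fin (5 * c) → Multiplicative (ZMod 2)) = u ^ 5
    rw [Fintype.card_fun, hcard2, Fintype.card_fin, hu, ← pow_mul, mul_comm]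
  have hcG : Nat.card (EA m) = 2 ^ m := by
    rw [Nat.card_eq_fintype_card, Fintype.card_fun, hcard2, Fintype.card_fin]
  have hm26 : (26 : ℝ) ≤ (m : ℝ) := by exact_mod_cast hm
  have hcS : Fintype.card (Gen H k) = u ^ 5 - 1 + k := by
    rw [Fintype.card_sum, Fintype.card_fin, Fintype.card_subtype_compl, Fintype.card_subtype_eq,
      hcH]
  have hu1 : 1 ≤ u := by omega
  have hrc : (Rel H k).card ≤ 4 * (u ^ 5) ^ 2 := by
    have h1 := rel_card (H := H) (k := k)
    rw [hcH] at h1
    have h2 : k ≤ u ^ 5 := le_trans hku (Nat.le_self_pow (by norm_num) u)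
    have h3 : 1 ≤ u ^ 5 := Nat.one_le_pow _ _ hu1
    nlinarith
  -- logarithms
  set L : ℝ := Real.log (Nat.card (EA m)) with hL
  have hL1 : (m : ℝ) * 0.6931471803 ≤ L := by
    rw [hL, hcG]
    push_cast
    rw [Real.log_pow]
    have hl2 : (0.6931471803 : ℝ) < Real.log 2 := Real.log_two_gt_d9
    exact mul_le_mul_of_nonneg_left hl2.le (by positivity)
  have hL5 : 5 ≤ L := by linarith
  have hLu : (u : ℝ) ≤ 3 * L := by
    have : (u : ℝ) ≤ 2 * m := by exact_mod_cast hum
    linarith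
  have hLA : L ^ 20 ≤ L ^ (10576 : ℝ) := by
    have : L ^ (20 : ℝ) ≤ L ^ (10576 : ℝ) :=
      Real.rpow_le_rpow_of_exponent_le (by linarith) (by norm_num)
    rwa [show (20 : ℝ) = ((20 : ℕ) : ℝ) by norm_num, Real.rpow_natCast] at this
  have hLL : 1 ≤ Real.log L := by
    rw [Real.le_log_iff_exp_le (by linarith)]
    have := Real.exp_one_lt_d9
    linarith
  have hu10 : (u : ℝ) ^ 10 ≤ L ^ 20 := by
    calc (u : ℝ) ^ 10 ≤ (L ^ 2) ^ 10 := pow_le_pow_left₀ (by positivity) (by nlinarith) 10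
      _ = L ^ 20 := by ring
  have hu1R : (1 : ℝ) ≤ (u : ℝ) := by exact_mod_cast hu1
  have hu510 : (u : ℝ) ^ 5 ≤ (u : ℝ) ^ 10 := pow_le_pow_right₀ hu1R (by norm_num)
  have hu110 : (u : ℝ) ≤ (u : ℝ) ^ 10 := le_self_pow₀ hu1R (by norm_num)
  have hkuR : (k : ℝ) ≤ (u : ℝ) := by exact_mod_cast hku
  have hk1R : (1 : ℝ) ≤ (k : ℝ) := by exact_mod_cast hk1
  have hL20 : 1 ≤ L ^ 20 := one_le_pow₀ (by linarith)
  have hof : ∀ s, (presEquiv : PG H k ≃* H × EE k) (PresentedGroup.of s) = genVal s := by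
    intro s
    exact PresentedGroup.toGroup.of lift_rel
  have hne : (Multiplicative.ofAdd (1 : ZMod 2)) ≠ 1 := by decide
  let e : PG H k ≃* EA m := (presEquiv : PG H k ≃* H × EE k).trans (splitEquiv hk)
  have hst : IsStable (Rel H k) (fun ε => 10576 * ε ^ (1 / 4 : ℝ)) := by
    intro n hn α
    set ε := defect (Rel H k) α with hε
    have hε0 : 0 ≤ ε := defect_nonneg _ _
    have hε1 : ε ≤ 1 := defect_le_one _ _
    set t : ℝ := ε ^ (1 / 4 : ℝ) with ht
    have ht0 : 0 ≤ t := Real.rpow_nonneg hε0 _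
    have ht1 : t ≤ 1 := Real.rpow_le_one hε0 hε1 (by norm_num)
    have ht4 : t ^ 4 = ε := by
      rw [ht, ← Real.rpow_natCast, ← Real.rpow_mul hε0]
      norm_num
    have hS0 : 0 < Fintype.card (Gen H k) := by
      rw [hcS]
      omega
    have e1 := est1 hn α hS0
    have e2 := est2 hn α hk1
    rw [← hε, ← ht4] at e1 e2
    rw [hcH] at e2
    push_cast at e2
    have h1 : ((Rel H k).card : ℝ) ≤ 4 * ((u : ℝ) ^ 5) ^ 2 := by exact_mod_cast hrc
    exact numeric hk1R hkuR ht0 ht1 (by positivity) h1 e1 e2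
  refine ⟨Gen H k, inferInstance, inferInstance, Rel H k, e, ?_, ?_, ?_, ?_, ?_, ?_, ?_, ?_⟩
  · intro s t hst
    have hst : (presEquiv : PG H k ≃* H × EE k) (PresentedGroup.of s) =
        (presEquiv : PG H k ≃* H × EE k) (PresentedGroup.of t) := (splitEquiv hk).injective hst
    rw [hof, hof] at hst
    rcases s with s | s <;> rcases t with t | t
    · simp only [genVal, Prod.mk.injEq, and_true] at hst
      rw [Subtype.ext hst]
    · simp only [genVal, Prod.mk.injEq] at hst
      exact absurd hst.1 s.2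
    · simp only [genVal, Prod.mk.injEq] at hst
      exact absurd hst.1.symm t.2
    · simp only [genVal, Prod.mk.injEq, true_and] at hst
      by_cases hne' : s = t
      · rw [hne']
      · exfalso
        have h1 := congrFun hst s
        rw [Pi.mulSingle_eq_same, Pi.mulSingle_eq_of_ne hne'] at h1
        exact hne h1
  · intro s hs
    have hs : (presEquiv : PG H k ≃* H × EE k) (PresentedGroup.of s) = 1 :=
      (splitEquiv hk).injective (by rw [map_one]; exact hs)
    rw [hof] at hs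
    rcases s with s | s
    · exact s.2 (congrArg Prod.fst hs)
    · have h1 := congrFun (congrArg Prod.snd hs) s
      simp only [genVal, Pi.mulSingle_eq_same, Prod.snd_one, Pi.one_apply] at h1
      exact hne h1
  · have h1 : (Fintype.card (Gen H k) : ℝ) ≤ u ^ 5 + k := by
      have : Fintype.card (Gen H k) ≤ u ^ 5 + k := by rw [hcS]; omega
      exact_mod_cast this
    calc (Fintype.card (Gen H k) : ℝ) ≤ 2 * L ^ 20 := by linarith
      _ ≤ 10576 * L ^ (10576 : ℝ) := by linarith
  · have h1 : ((Rel H k).card : ℝ) ≤ 4 * (u ^ 5) ^ 2 := by exact_mod_cast hrc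
    have h2 : ((u : ℝ) ^ 5) ^ 2 = u ^ 10 := by ring
    rw [h2] at h1
    calc ((Rel H k).card : ℝ) ≤ 4 * L ^ 20 := by linarith
      _ ≤ 10576 * L ^ (10576 : ℝ) := by linarith
  · intro r hr
    have h1 : (r.norm : ℝ) ≤ 4 := by exact_mod_cast norm_rel r hr
    linarith
  · intro n hn α
    have h0 := hst n hn α
    have h5 : 1 ≤ Real.log L ^ (10576 : ℝ) := Real.one_le_rpow hLL (by norm_num)
    have ht0 : 0 ≤ (defect (Rel H k) α) ^ (1 / 4 : ℝ) := Real.rpow_nonneg (defect_nonneg _ _) _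
    calc distHom (Rel H k) α ≤ 10576 * (defect (Rel H k) α) ^ (1 / 4 : ℝ) := h0
      _ = 10576 * 1 * (defect (Rel H k) α) ^ (1 / 4 : ℝ) := by ring
      _ ≤ 10576 * Real.log L ^ (10576 : ℝ) * (defect (Rel H k) α) ^ (1 / 4 : ℝ) := by
          refine mul_le_mul_of_nonneg_right ?_ ht0
          linarith
  · exact fun r hr => norm_rel r hr
  · exact hst

end Pool.Agent.Results.MP_3a79a1_al.EfficientPresentations
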