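import Pool.Agent.Lib_MP_3a79a1_b.Fam

/-!
# Efficient stable presentations whose generators are spread

There are a constant `A ≥ 1` and finite groups `G = (Z/2)^k`, `k` arbitrarily large, with
presentations `⟨S | R⟩` and probability distributions `μS`, `μR` (positive everywhere) such that
the generators are pairwise distinct non-identity elements of `G`, `|S|, |R| ≤ A (log |G|)^A`, all
relations have length at most `4`, every proper subgroup of `G` contains at most `51/100` of the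
generators (measured by `μS`), and the presentation is `ρ`-stable in permutations with the linear
rate `ρ(ε) = A (log log |G|)^A ε`.
-/

namespace Pool.Agent.Results.MP_3a79a1_al.SpreadPresentations

open Pool.Agent.Lib_MP_3a79a1_b.Stab

open Classical in
/-- **Main theorem.** -/
theorem result : ∃ A : ℝ, 1 ≤ A ∧ ∀ k₀ : ℕ, ∃ k ≥ k₀,
    ∃ (S : Type) (_ : Fintype S) (_ : DecidableEq S) (R : Finset (FreeGroup S)) (μS : S → ℝ)
      (μR : FreeGroup S → ℝ) (e : PresentedGroup (R : Set (FreeGroup S)) ≃* EA k),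
      (∀ s t, e (PresentedGroup.of s) = e (PresentedGroup.of t) → s = t) ∧
      (∀ s, e (PresentedGroup.of s) ≠ 1) ∧
      (∀ s, 0 < μS s) ∧ ∑ s, μS s = 1 ∧ (∀ r ∈ R, 0 < μR r) ∧ ∑ r ∈ R, μR r = 1 ∧
      (Fintype.card S : ℝ) ≤ A * Real.log (Nat.card (EA k)) ^ A ∧
      (R.card : ℝ) ≤ A * Real.log (Nat.card (EA k)) ^ A ∧
      (∀ r ∈ R, r.norm ≤ 4) ∧
      (∀ H : Subgroup (EA k), H ≠ ⊤ →
        ∑ s ∈ Finset.univ.filter (fun s => e (PresentedGroup.of s) ∈ H), μS s ≤ 51 / 100) ∧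
      IsStable R μS μR (fun ε => A * Real.log (Real.log (Nat.card (EA k))) ^ A * ε) := by
  refine ⟨10 ^ 35, by norm_num, fun k₀ => ?_⟩
  obtain ⟨k, hk, S, i1, i2, R, μS, μR, e, g1, g2, h1, h2, h3, h4, h5, h6, h7, h8, h9⟩ :=
    exists_fam (k₀ + 1) (by omega)
  refine ⟨k, by omega, S, i1, i2, R, μS, μR, e, g1, g2, h1, h2, h3, h4, h5, h6, h7, ?_, h9⟩
  intro H hH
  refine le_trans (le_of_eq ?_) (h8 H hH)
  rw [Finset.sum_filter]
  refine Finset.sum_congr rfl (fun s _ => ?_)
  by_cases hs : e (PresentedGroup.of s) ∈ H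
  · rw [if_pos hs, Pool.Agent.Lib_MP_3a79a1_b.ind_true hs, mul_one]
  · rw [if_neg hs, Pool.Agent.Lib_MP_3a79a1_b.ind_false hs, mul_zero]

end Pool.Agent.Results.MP_3a79a1_al.SpreadPresentations
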